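import Pool.Agent.EF50.Fin

/-!
# MP_399079_lc: decidability of first-order definability when there are finitely many reducts

Let `Δ = (M; S)` be a homogeneous and finitely bounded structure with finitely many relations, and let `Γ₀` be a reduct
of `Δ`, its relations given by the list `P` of quantifier free formulas. If up to first-order interdefinability there
are only finitely many reducts of `Δ` in which `Γ₀` is first-order definable, then it is decidable, given quantifier
free formulas `φ₀, φ₁, …, φₖ` over `Δ`, whether the relation defined by `φ₀` is first-order definable from the relations
of `Γ₀` and the relations defined by `φ₁, …, φₖ`.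
-/

set_option autoImplicit false

namespace Pool.Agent.Results.MP_399079_lc.FinitelyManyReducts

theorem result {l : ℕ} (ar : Fin l → ℕ) {M : Type} [Nonempty M] (S : ∀ i, (Fin (ar i) → M) → Prop)
    (h : EF50.FBHom ar S) (P : List (ℕ × EF39.QF)) (hP : EF50.FinAbove ar S P) :
    ComputablePred (fun x : List (ℕ × EF39.QF) × (ℕ × EF39.QF) => EF50.DefL ar S (P ++ x.1) x.2) :=
  EF50.computable_of_finAbove h P hP

end Pool.Agent.Results.MP_399079_lc.FinitelyManyReducts
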