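import Pool.Agent.EF40.Fin

/-!
# MP_399079_lc: decidability of first-order definability in reducts which define the generic order

Let `(M; S)` be a structure with finitely many relations which has disjoint `N`-amalgamation for all `N`, let
`(M; lt, S)` be its homogeneous expansion by a generic linear order, and let `Γ = (M; T)` be a reduct of `(M; lt, S)`
with finite signature in which `lt` is first-order definable. Then it is decidable whether the relation defined by a
given quantifier-free formula over `(M; lt, S)` is first-order definable in `Γ`.
-/

set_option autoImplicit false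

namespace Pool.Agent.Results.MP_399079_lc.OrderDefiningDec

theorem result {l : ℕ} (ar : Fin l → ℕ) {M : Type} [Nonempty M] (S : ∀ i, (Fin (ar i) → M) → Prop)
    (lt : M → M → Prop) (h : EF39.GenOrd ar S lt) {k : ℕ} (br : Fin k → ℕ) (T : ∀ j, (Fin (br j) → M) → Prop)
    (hT : ∀ j, EF39.FODef (EF39.arO ar) (EF39.SO ar S lt) (T j))
    (hlt : EF39.FODef br T (fun v : Fin 2 → M => lt (v 0) (v 1))) :
    ComputablePred (fun x : ℕ × EF39.QF =>
      EF39.FODef br T (fun v : Fin x.1 → M => EF39.QFTrue ar S lt x.2 v)) :=
  EF39.expr_decidable_o ar S lt h br T hT hlt

end Pool.Agent.Results.MP_399079_lc.OrderDefiningDec
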