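import Pool.Agent.EF39.Fin

/-!
# MP_399079_lc: decidability of first-order definability in reducts of unconstrained homogeneous structures

Let `(M; S)` be a structure with finitely many relations which has disjoint `N`-amalgamation for all `N`, let
`(M; lt, S)` be its homogeneous expansion by a generic linear order, and let `Γ = (M; T)` be any reduct of `(M; S)`
with finite signature. Then it is decidable whether the relation defined by a given quantifier-free formula over
`(M; lt, S)` is first-order definable in `Γ`.
-/

set_option autoImplicit false

namespace Pool.Agent.Results.MP_399079_lc.UnconstrainedDec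

theorem result {l : ℕ} (ar : Fin l → ℕ) {M : Type} [Nonempty M] (S : ∀ i, (Fin (ar i) → M) → Prop)
    (lt : M → M → Prop) (h : EF39.GenOrd ar S lt) {k : ℕ} (br : Fin k → ℕ) (T : ∀ j, (Fin (br j) → M) → Prop)
    (hT : ∀ j, EF39.FODef ar S (T j)) :
    ComputablePred (fun x : ℕ × EF39.QF =>
      EF39.FODef br T (fun v : Fin x.1 → M => EF39.QFTrue ar S lt x.2 v)) :=
  EF39.expr_decidable ar S lt h br T hT

end Pool.Agent.Results.MP_399079_lc.UnconstrainedDec
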